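import Pool.Agent.Helper6.NX.GoalsB

/-!
# NX-HOM: the conditional entropies are nearly the same at all positions
-/

set_option linter.unusedSectionVars false

namespace Pool.Agent.Helper77.NX

open Matrix Equiv Filter Topology Pool.Agent.Helper15.An Pool.Agent.Helper6.NX
open scoped ComplexOrder

lemma im_mul {n : ℕ} (w π : Perm (Fin n)) (D : Finset (Fin n)) :
    im (w * π) D = im w (im π D) := by
  unfold im
  rw [Finset.image_image]
  rfl

/-- the product with the sign has sum zero -/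
lemma sum_sign_zero {n : ℕ} (Φ : Perm (Fin n) → ℝ) (τ : Perm (Fin n)) (hτ : Perm.sign τ = -1)
    (h : ∀ π, Φ (π * τ) = Φ π) : ∑ π : Perm (Fin n), ((Perm.sign π : ℤ) : ℝ) * Φ π = 0 := by
  have h1 : ∑ π : Perm (Fin n), ((Perm.sign π : ℤ) : ℝ) * Φ π =
      -∑ π : Perm (Fin n), ((Perm.sign π : ℤ) : ℝ) * Φ π := by
    conv_lhs => rw [← Equiv.sum_comp (Equiv.mulRight τ)]
    rw [← Finset.sum_neg_distrib]
    refine Finset.sum_congr rfl fun π _ => ?_
    simp only [Equiv.coe_mulRight]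
    rw [h, Perm.sign_mul, hτ]
    push_cast
    ring
  linarith

theorem thmHOM (_havg : S_AVG) (hplan : S_PLAN) (hnse : S_NSE) (hhomc : S_HOMC) : S_HOM := by
  unfold S_NSE at hnse
  unfold S_HOM
  filter_upwards [hnse, eventually_ge_atTop 81] with n hns hn
  intro k L hk F ω e hk3 hL hω he hlow hF01 hFanti hinv
  obtain ⟨pw⟩ := exists_pw (Perm (Fin n))
  have hs9 : 9 ≤ Nat.sqrt n := Nat.le_sqrt.2 (by omega)
  have hss : Nat.sqrt n * Nat.sqrt n ≤ n := Nat.sqrt_le n
  have h8 : 8 * Nat.sqrt n ≤ n := by nlinarith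
  have hN : (0 : ℝ) < n.factorial := by exact_mod_cast Nat.factorial_pos n
  have hcard : (Finset.univ : Finset (Perm (Fin n))).card = n.factorial := by
    rw [Finset.card_univ, Fintype.card_perm, Fintype.card_fin]
  set Φ : Perm (Fin n) → ℝ := fun π => F (π ⟨k, hk⟩) (im π (ini n k)) - avF F k with hΦ
  have hA : avF F k = (n.factorial : ℝ)⁻¹ *
      ∑ π : Perm (Fin n), F (π ⟨k, hk⟩) (im π (ini n k)) := by
    unfold avF
    rw [dif_pos hk]
  have hsum : ∑ π, Φ π = 0 := by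
    rw [hΦ, Finset.sum_sub_distrib, Finset.sum_const, hcard, nsmul_eq_mul, hA, ← mul_assoc,
      mul_inv_cancel₀ hN.ne', one_mul, sub_self]
  -- the transposition
  set x1 : Fin n := ⟨k + 1, by omega⟩ with hx1
  set x2 : Fin n := ⟨k + 2, by omega⟩ with hx2
  have hx12 : x1 ≠ x2 := by
    rw [hx1, hx2]
    intro h
    have := congrArg Fin.val h
    simp only at this
    omega
  have hτfix : ∀ x : Fin n, x.val ≤ k → swap x1 x2 x = x := by
    intro x hx
    apply swap_apply_of_ne_of_ne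
    · intro h
      have := congrArg Fin.val h
      rw [hx1] at this
      simp only at this
      omega
    · intro h
      have := congrArg Fin.val h
      rw [hx2] at this
      simp only at this
      omega
  have him : im (swap x1 x2) (ini n k) = ini n k := by
    unfold im
    ext x
    rw [Finset.mem_image]
    constructor
    · rintro ⟨y, hy, rfl⟩
      have hy' : y.val < k := by
        unfold ini at hy
        simpa using hy
      rw [hτfix y (by omega)]
      exact hy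
    · intro hx
      have hx' : x.val < k := by
        unfold ini at hx
        simpa using hx
      exact ⟨x, hx, hτfix x (by omega)⟩
  have hsign : ∑ π : Perm (Fin n), ((Perm.sign π : ℤ) : ℝ) * Φ π = 0 := by
    apply sum_sign_zero Φ (swap x1 x2) (Perm.sign_swap hx12)
    intro π
    rw [hΦ]
    simp only
    rw [im_mul, him, Perm.mul_apply, hτfix ⟨k, hk⟩ le_rfl]
  have hp := hplan n pw Φ ω (nse n (8 * Nat.sqrt n)) (by omega) hω hns.1 (fun i hi => by
    by_cases hf : HasFix (pw.ρ i) (stab n (Nat.sqrt n))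
    · exact Or.inl (hlow _ _ (pw.irr i) hi hf)
    · exact Or.inr (hns.2 _ _ (pw.irr i) hf)) hsum hsign
  -- the first sum
  have h1 : ∑ π, ∑ w, ω w * (Φ (w * π) - Φ π) ^ 2 ≤ n.factorial * e ^ 2 := by
    calc ∑ π, ∑ w, ω w * (Φ (w * π) - Φ π) ^ 2
        ≤ ∑ _π : Perm (Fin n), ∑ w, ω w * e ^ 2 := by
          refine Finset.sum_le_sum fun π _ => Finset.sum_le_sum fun w _ => ?_
          rcases (hω.nonneg w).eq_or_lt with h0 | h0
          · rw [← h0, zero_mul, zero_mul]
          · refine mul_le_mul_of_nonneg_left ?_ h0.le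
            have h2 := hinv w h0 (π ⟨k, hk⟩) (im π (ini n k))
            have h3 : Φ (w * π) - Φ π =
                F (w (π ⟨k, hk⟩)) (im w (im π (ini n k))) - F (π ⟨k, hk⟩) (im π (ini n k)) := by
              rw [hΦ]
              simp only
              rw [im_mul, Perm.mul_apply]
              ring
            rw [h3, ← sq_abs]
            exact pow_le_pow_left₀ (abs_nonneg _) h2 2
      _ = n.factorial * e ^ 2 := by
          rw [← Finset.sum_mul, hω.sum, Finset.sum_const, hcard, nsmul_eq_mul, one_mul]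
  -- the second sum
  have h2 : ∑ π, ∑ σ, nse n (8 * Nat.sqrt n) σ * (Φ (π * σ) - Φ π) ^ 2 ≤
      ∑ π : Perm (Fin n), ∑ σ : Perm (Fin n), nse n (8 * Nat.sqrt n) σ *
        |F ((π * σ) ⟨k, hk⟩) (im (π * σ) (ini n k)) - F (π ⟨k, hk⟩) (im π (ini n k))| := by
    refine Finset.sum_le_sum fun π _ => Finset.sum_le_sum fun σ _ => ?_
    refine mul_le_mul_of_nonneg_left ?_ (hns.1.nonneg σ)
    have h3 : Φ (π * σ) - Φ π =
        F ((π * σ) ⟨k, hk⟩) (im (π * σ) (ini n k)) - F (π ⟨k, hk⟩) (im π (ini n k)) := by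
      rw [hΦ]
      ring
    rw [h3, ← sq_abs]
    have h4 := hF01 ((π * σ) ⟨k, hk⟩) (im (π * σ) (ini n k))
    have h5 := hF01 (π ⟨k, hk⟩) (im π (ini n k))
    have h6 : |F ((π * σ) ⟨k, hk⟩) (im (π * σ) (ini n k)) -
        F (π ⟨k, hk⟩) (im π (ini n k))| ≤ 1 := by
      rw [abs_le]
      constructor <;> linarith [h4.1, h4.2, h5.1, h5.2]
    nlinarith [abs_nonneg (F ((π * σ) ⟨k, hk⟩) (im (π * σ) (ini n k)) -
        F (π ⟨k, hk⟩) (im π (ini n k)))]
  have h3 := hhomc n k L (8 * Nat.sqrt n) hk F hL h8 hF01 hFanti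
  have h4 : (n.factorial : ℝ)⁻¹ * ∑ π, Φ π ^ 2 ≤ e ^ 2 +
      (((8 * Nat.sqrt n : ℕ) : ℝ) / n + k * ((8 * Nat.sqrt n : ℕ) : ℝ) / (n * L) +
        2 * (avF F k - avF F (k + L))) := by
    calc (n.factorial : ℝ)⁻¹ * ∑ π, Φ π ^ 2
        ≤ (n.factorial : ℝ)⁻¹ * (n.factorial * e ^ 2 +
          ∑ π : Perm (Fin n), ∑ σ : Perm (Fin n), nse n (8 * Nat.sqrt n) σ *
        |F ((π * σ) ⟨k, hk⟩) (im (π * σ) (ini n k)) - F (π ⟨k, hk⟩) (im π (ini n k))|) := by
          refine mul_le_mul_of_nonneg_left ?_ (by positivity)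
          linarith
      _ = e ^ 2 + (n.factorial : ℝ)⁻¹ * ∑ π : Perm (Fin n), ∑ σ : Perm (Fin n),
          nse n (8 * Nat.sqrt n) σ *
        |F ((π * σ) ⟨k, hk⟩) (im (π * σ) (ini n k)) - F (π ⟨k, hk⟩) (im π (ini n k))| := by
          rw [mul_add, ← mul_assoc, inv_mul_cancel₀ hN.ne', one_mul]
      _ ≤ _ := by linarith
  -- numbers
  have hn0 : (0 : ℝ) < n := by exact_mod_cast (by omega : 0 < n)
  have hL0 : (0 : ℝ) < L := by exact_mod_cast (by omega : 0 < L)
  have hq0 : (0 : ℝ) < Real.sqrt n := Real.sqrt_pos.2 hn0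
  have hqq : Real.sqrt n * Real.sqrt n = n := Real.mul_self_sqrt hn0.le
  have hsq : (Nat.sqrt n : ℝ) ≤ Real.sqrt n := Real.nat_sqrt_le_real_sqrt
  have h5 : ((8 * Nat.sqrt n : ℕ) : ℝ) / n ≤ 8 / Real.sqrt n := by
    push_cast
    rw [div_le_div_iff₀ hn0 hq0]
    nlinarith
  have h6 : k * ((8 * Nat.sqrt n : ℕ) : ℝ) / (n * L) ≤ 8 * k / (L * Real.sqrt n) := by
    have hk0 : (0 : ℝ) ≤ k := Nat.cast_nonneg k
    calc k * ((8 * Nat.sqrt n : ℕ) : ℝ) / (n * L)
        = (k / L) * (((8 * Nat.sqrt n : ℕ) : ℝ) / n) := by field_simp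
      _ ≤ (k / L) * (8 / Real.sqrt n) := mul_le_mul_of_nonneg_left h5 (by positivity)
      _ = 8 * k / (L * Real.sqrt n) := by field_simp
  have h7 : ∑ π : Perm (Fin n), (F (π ⟨k, hk⟩) (im π (ini n k)) - avF F k) ^ 2 =
      ∑ π, Φ π ^ 2 := rfl
  rw [h7]
  linarith

end Pool.Agent.Helper77.NX
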