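import Pool.Agent.Helper6.NX.GoalsB
import Pool.Agent.Helper15.An.CharMat

/-!
# NX-NSE: the noise has spectral radius at most one half on the high levels
-/

set_option linter.unusedSectionVars false

namespace Pool.Agent.Helper77.NX

open Matrix Module Equiv Filter Topology Pool.Agent.Helper15.An Pool.Agent.Helper6.NX
open Pool.Agent.Helper17.RelDim (fixS finrank_fixS_le)
open scoped ComplexOrder

/-- integration against a law -/
lemma sum_law {Ω α E : Type} [Fintype Ω] [Fintype α] [AddCommMonoid E] [Module ℝ E]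
    (P : Ω → ℝ) (X : Ω → α) (f : α → E) :
    ∑ a, law P X a • f a = ∑ ω, P ω • f (X ω) := by
  classical
  unfold law
  simp_rw [Finset.sum_smul]
  rw [Finset.sum_comm]
  refine Finset.sum_congr rfl fun ω _ => ?_
  rw [Finset.sum_eq_single (X ω)]
  · simp
  · intro a _ ha
    rw [if_neg (fun h => ha h.symm), zero_smul]
  · intro h
    exact absurd (Finset.mem_univ _) h

lemma sum_law' {Ω α : Type} [Fintype Ω] [Fintype α] (P : Ω → ℝ) (X : Ω → α) :
    ∑ a, law P X a = ∑ ω, P ω := by
  have h := sum_law P X (fun _ => (1 : ℝ))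
  simpa using h

/-- the noise is a symmetric probability weight -/
lemma nse_isSP (n r : ℕ) : IsSP (Set.univ) (nse n r) := by
  classical
  have hG : (0 : ℝ) < Fintype.card (Perm (Fin n)) := by exact_mod_cast Fintype.card_pos
  have hH : (0 : ℝ) < Fintype.card (stab n (n - r)) := card_pos' (stab n (n - r))
  refine ⟨fun g => ?_, ?_, fun g => ?_, fun g hg => absurd (Set.mem_univ g) hg⟩
  · unfold nse law
    refine Finset.sum_nonneg fun z _ => ?_
    split_ifs
    · unfold prd unif
      positivity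
    · exact le_refl _
  · unfold nse
    rw [sum_law', Fintype.sum_prod_type]
    unfold prd unif
    simp only [Finset.sum_const, Finset.card_univ, nsmul_eq_mul]
    field_simp
  · unfold nse law
    rw [← Equiv.sum_comp (Equiv.prodCongr (Equiv.refl (Perm (Fin n)))
      (Equiv.inv (stab n (n - r))))]
    refine Finset.sum_congr rfl fun z _ => ?_
    have h1 : ((Equiv.prodCongr (Equiv.refl (Perm (Fin n))) (Equiv.inv (stab n (n - r)))) z).1 *
        ((((Equiv.prodCongr (Equiv.refl (Perm (Fin n))) (Equiv.inv (stab n (n - r)))) z).2 :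
          stab n (n - r)) : Perm (Fin n)) *
        (((Equiv.prodCongr (Equiv.refl (Perm (Fin n))) (Equiv.inv (stab n (n - r)))) z).1)⁻¹ =
        (z.1 * (z.2 : Perm (Fin n)) * z.1⁻¹)⁻¹ := by
      simp only [Equiv.prodCongr_apply, Prod.map_fst, Prod.map_snd, Equiv.refl_apply,
        Equiv.inv_apply, InvMemClass.coe_inv, _root_.mul_inv_rev, inv_inv]
      group
    have h2 : prd (unif (Perm (Fin n))) (unif (stab n (n - r)))
        ((Equiv.prodCongr (Equiv.refl (Perm (Fin n))) (Equiv.inv (stab n (n - r)))) z) =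
        prd (unif (Perm (Fin n))) (unif (stab n (n - r))) z := rfl
    beta_reduce
    rw [h1, h2]
    simp only [_root_.inv_inj]
    split_ifs <;> rfl

/-- the operator of the noise is a scalar -/
lemma wop_nse {n D : ℕ} (r : ℕ) (ρ : Perm (Fin n) →* Matrix (Fin D) (Fin D) ℂ) (hρ : IsIrr ρ) :
    wop ρ (nse n r) = ((trace (psum ρ (stab n (n - r)))).re /
      ((Fintype.card (stab n (n - r)) : ℝ) * D)) • (1 : Matrix (Fin D) (Fin D) ℂ) := by
  classical
  have hG : (Fintype.card (Perm (Fin n)) : ℂ) ≠ 0 := by exact_mod_cast Fintype.card_ne_zero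
  have hD : (D : ℂ) ≠ 0 := by exact_mod_cast hρ.pos.ne'
  have hH : (Fintype.card (stab n (n - r)) : ℂ) ≠ 0 := by exact_mod_cast Fintype.card_ne_zero
  unfold wop nse
  rw [sum_law, Fintype.sum_prod_type]
  have h1 : ∀ (α : Perm (Fin n)), ∑ τ : stab n (n - r),
      prd (unif (Perm (Fin n))) (unif (stab n (n - r))) (α, τ) •
        ρ (α * (τ : Perm (Fin n)) * α⁻¹) =
      ((Fintype.card (Perm (Fin n)) : ℝ)⁻¹ * (Fintype.card (stab n (n - r)) : ℝ)⁻¹) •
        (ρ α * psum ρ (stab n (n - r)) * (ρ α)ᴴ) := by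
    intro α
    unfold psum
    rw [Finset.mul_sum, Finset.sum_mul, Finset.smul_sum]
    refine Finset.sum_congr rfl fun τ _ => ?_
    rw [rho_conj ρ hρ.unit, ← map_mul, ← map_mul]
    rfl
  have h2 : ∀ (α : Perm (Fin n)), ∑ τ : stab n (n - r),
      prd (unif (Perm (Fin n))) (unif (stab n (n - r))) (α, τ) •
        ρ ((α, τ).1 * ((α, τ).2 : Perm (Fin n)) * ((α, τ).1)⁻¹) =
      ((Fintype.card (Perm (Fin n)) : ℝ)⁻¹ * (Fintype.card (stab n (n - r)) : ℝ)⁻¹) •
        (ρ α * psum ρ (stab n (n - r)) * (ρ α)ᴴ) := h1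
  simp_rw [h2]
  rw [← Finset.smul_sum, hρ.schur]
  have h3 := trace_psd_real (psum_isHermitian ρ (stab n (n - r)) hρ.unit)
  rw [← h3]
  ext i j
  simp only [Matrix.smul_apply, smul_eq_mul, Complex.real_smul]
  push_cast
  simp only [Complex.ofReal_re]
  field_simp

/-- the last `r` points -/
def lastP (n r : ℕ) : Finset (Fin n) := Finset.univ.filter fun x : Fin n => n - r ≤ x.val

lemma card_lastP {n r : ℕ} (hr : r ≤ n) : (lastP n r).card = r := by
  classical
  have h1 : (Finset.univ.filter fun j : Fin n => j.val < n - r).card = n - r := by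
    rcases Nat.lt_or_ge (n - r) n with h | h
    · have : (Finset.univ.filter fun j : Fin n => j.val < n - r) =
          Finset.Iio (⟨n - r, h⟩ : Fin n) := by
        ext j; simp [Fin.lt_def]
      rw [this, Fin.card_Iio]
    · have : (Finset.univ.filter fun j : Fin n => j.val < n - r) = Finset.univ := by
        ext j
        simp only [Finset.mem_filter, Finset.mem_univ, true_and, iff_true]
        omega
      rw [this, Finset.card_univ, Fintype.card_fin]
      omega
  have h2 := Finset.card_filter_add_card_filter_not (s := (Finset.univ : Finset (Fin n)))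
    (fun j : Fin n => j.val < n - r)
  rw [h1, Finset.card_univ, Fintype.card_fin] at h2
  have h3 : (Finset.univ.filter fun j : Fin n => ¬ j.val < n - r) = lastP n r := by
    unfold lastP
    ext j
    simp
  rw [h3] at h2
  omega

/-- the trace of the sum over the stabilizer -/
lemma trace_psum_eq {n D : ℕ} (r : ℕ) (ρ : Perm (Fin n) →* Matrix (Fin D) (Fin D) ℂ) :
    trace (psum ρ (stab n (n - r))) = (Fintype.card (stab n (n - r)) : ℂ) *
      (finrank ℂ (altfix (toV ρ) (lastP n r)) : ℂ) := by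
  classical
  have hH : (Fintype.card (stab n (n - r)) : ℂ) ≠ 0 := by exact_mod_cast Fintype.card_ne_zero
  set H := stab n (n - r) with hHdef
  set P : EuclideanSpace ℂ (Fin D) →ₗ[ℂ] EuclideanSpace ℂ (Fin D) :=
    (Fintype.card H : ℂ)⁻¹ • ∑ τ : H, toV ρ (τ : Perm (Fin n)) with hP
  have hmem : ∀ σ : Perm (Fin n), Perm.sign σ = 1 → (∀ x, x ∉ lastP n r → σ x = x) → σ ∈ H := by
    intro σ hs hσ
    rw [hHdef, mem_stab]
    refine ⟨hs, fun j hj => hσ j ?_⟩
    unfold lastP
    simp only [Finset.mem_filter, Finset.mem_univ, true_and, not_le]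
    exact hj
  have hproj : LinearMap.IsProj (altfix (toV ρ) (lastP n r)) P := by
    constructor
    · intro v σ hs hσ
      have hσH := hmem σ hs hσ
      rw [hP, LinearMap.smul_apply, map_smul, LinearMap.sum_apply, map_sum]
      congr 1
      rw [← Equiv.sum_comp (Equiv.mulLeft (⟨σ, hσH⟩ : H))
        (fun τ : H => toV ρ (τ : Perm (Fin n)) v)]
      refine Finset.sum_congr rfl fun τ _ => ?_
      simp only [Equiv.coe_mulLeft, Subgroup.coe_mul]
      rw [map_mul]
      rfl
    · intro v hv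
      rw [hP, LinearMap.smul_apply, LinearMap.sum_apply]
      have h1 : ∀ τ : H, toV ρ (τ : Perm (Fin n)) v = v := by
        intro τ
        have h2 := mem_stab.1 τ.2
        refine hv τ h2.1 fun x hx => h2.2 x ?_
        unfold lastP at hx
        simp only [Finset.mem_filter, Finset.mem_univ, true_and, not_le] at hx
        exact hx
      simp_rw [h1]
      rw [Finset.sum_const, Finset.card_univ, ← Nat.cast_smul_eq_nsmul ℂ, smul_smul,
        inv_mul_cancel₀ hH, one_smul]
  have htr := hproj.trace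
  have h3 : LinearMap.trace ℂ (EuclideanSpace ℂ (Fin D)) P =
      (Fintype.card H : ℂ)⁻¹ * trace (psum ρ H) := by
    rw [hP, map_smul, map_sum, smul_eq_mul]
    congr 1
    unfold psum
    rw [trace_sum]
    exact Finset.sum_congr rfl fun τ _ => toV_trace ρ τ
  rw [h3] at htr
  change trace (psum ρ H) = (Fintype.card H : ℂ) * _
  rw [← htr, ← mul_assoc, mul_inv_cancel₀ hH, one_mul]

/-- the numerical estimate -/
lemma num_bound {n m : ℕ} (hm9 : 9 ≤ m) (hmn : m * m ≤ n) (hmn' : n < (m + 1) * (m + 1)) :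
    (1 - (((8 * m : ℕ) : ℝ) - 2 * (m + 1 : ℕ) - 1) / ((n : ℝ) - 2 * (m + 1 : ℕ) - 1)) ^ (m + 1) ≤
      1 / 4 := by
  have hm' : (9 : ℝ) ≤ m := by exact_mod_cast hm9
  have h1 : (m : ℝ) * m ≤ n := by exact_mod_cast hmn
  have h2 : (n : ℝ) < (m + 1) * (m + 1) := by exact_mod_cast hmn'
  push_cast
  have hden : (0 : ℝ) < (n : ℝ) - 2 * (m + 1) - 1 := by nlinarith
  set x : ℝ := (8 * (m : ℝ) - 2 * (m + 1) - 1) / ((n : ℝ) - 2 * (m + 1) - 1) with hx
  have hx1 : x ≤ 1 := by
    rw [hx, div_le_one hden]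
    nlinarith
  have hx2 : 4 ≤ x * (m + 1) := by
    rw [hx, div_mul_eq_mul_div, le_div_iff₀ hden]
    nlinarith
  have h3 : (1 - x) ^ (m + 1) ≤ Real.exp (-x) ^ (m + 1) :=
    pow_le_pow_left₀ (by linarith) (Real.one_sub_le_exp_neg x) _
  have h4 : Real.exp (-x) ^ (m + 1) = Real.exp (-(x * (m + 1))) := by
    rw [← Real.exp_nat_mul]
    congr 1
    push_cast
    ring
  have h5 : Real.exp (-(x * (m + 1))) ≤ Real.exp (-4) := Real.exp_le_exp.2 (by linarith)
  have h6 : Real.exp (-4) ≤ 1 / 4 := by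
    rw [Real.exp_neg, ← one_div]
    apply one_div_le_one_div_of_le (by norm_num)
    have := Real.add_one_le_exp (4 : ℝ)
    linarith
  linarith [h4 ▸ h3]

/-- dimension bound -/
lemma finrank_bound {n D : ℕ} (ρ : Perm (Fin n) →* Matrix (Fin D) (Fin D) ℂ)
    (hu : ∀ g, (ρ g)ᴴ * ρ g = 1) (hn : 81 ≤ n) (hno : ¬ HasFix ρ (stab n (Nat.sqrt n)))
    (C : Finset (Fin n)) (hC : C.card = 8 * Nat.sqrt n) :
    (finrank ℂ (altfix (toV ρ) C) : ℝ) ≤ 1 / 2 * D := by
  set m := Nat.sqrt n with hm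
  have hm9 : 9 ≤ m := by
    rw [hm]
    exact Nat.le_sqrt.2 (by omega)
  have hmn : m * m ≤ n := Nat.sqrt_le n
  have hmn' : n < (m + 1) * (m + 1) := Nat.lt_succ_sqrt n
  have hno' : ∀ v : EuclideanSpace ℂ (Fin D), (∀ σ : Perm (Fin n), Perm.sign σ = 1 →
      (∀ j : Fin n, j.val < m → σ j = j) → toV ρ σ v = v) → v = 0 := by
    intro v hv
    by_contra hne
    apply hno
    refine ⟨v.ofLp, fun h0 => hne ?_, fun h => ?_⟩
    · ext i
      rw [h0]; rfl
    · have h1 := hv h.1 (mem_stab.1 h.2).1 (mem_stab.1 h.2).2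
      rw [toV_apply] at h1
      exact congrArg WithLp.ofLp h1
  have h1 := finrank_fixS_le (toV ρ) (toV_inner ρ hu) m (m + 1)
    (fun C' hC' => by
      rw [eq_bot_iff, ← altfix_eq_bot (toV ρ) m hno' C' hC']
      exact fixS_le_altfix (toV ρ) C') le_rfl C (by omega)
  have h2 := finrank_fixS_le (tw (toV ρ)) (tw_unitary (toV_inner ρ hu)) m (m + 1)
    (fun C' hC' => by
      rw [eq_bot_iff, ← altfix_eq_bot (toV ρ) m hno' C' hC']
      exact fixS_tw_le_altfix (toV ρ) C') le_rfl C (by omega)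
  rw [hC, finrank_euclideanSpace_fin] at h1 h2
  have h3 := num_bound hm9 hmn hmn'
  have hD : (0 : ℝ) ≤ D := Nat.cast_nonneg _
  have h4 := mul_le_mul_of_nonneg_right h3 hD
  have h6 : finrank ℂ (altfix (toV ρ) C) ≤
      finrank ℂ (fixS (toV ρ) C) + finrank ℂ (fixS (tw (toV ρ)) C) :=
    (Submodule.finrank_mono (altfix_le (toV ρ) C (by omega))).trans
      (Submodule.finrank_add_le_finrank_add_finrank _ _)
  have h7 : (finrank ℂ (altfix (toV ρ) C) : ℝ) ≤
      finrank ℂ (fixS (toV ρ) C) + finrank ℂ (fixS (tw (toV ρ)) C) := by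
    exact_mod_cast h6
  linarith

theorem thmNSE : S_NSE := by
  unfold S_NSE
  filter_upwards [eventually_ge_atTop 81] with n hn
  refine ⟨nse_isSP n _, fun D ρ hρ hno => ?_⟩
  have hm9 : 9 ≤ Nat.sqrt n := Nat.le_sqrt.2 (by omega)
  have hmn : Nat.sqrt n * Nat.sqrt n ≤ n := Nat.sqrt_le n
  have h8 : 8 * Nat.sqrt n ≤ n := by nlinarith
  rw [wop_nse _ ρ hρ, ← sub_smul]
  refine PosSemidef.one.smul ?_
  rw [sub_nonneg, trace_psum_eq]
  have hb := finrank_bound ρ hρ.unit hn hno (lastP n (8 * Nat.sqrt n)) (card_lastP h8)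
  have hH : (0 : ℝ) < Fintype.card (stab n (n - 8 * Nat.sqrt n)) :=
    card_pos' (stab n (n - 8 * Nat.sqrt n))
  have hD : (0 : ℝ) < D := by exact_mod_cast hρ.pos
  rw [div_le_iff₀ (by positivity)]
  have h1 : ((Fintype.card (stab n (n - 8 * Nat.sqrt n)) : ℂ) *
      (finrank ℂ (altfix (toV ρ) (lastP n (8 * Nat.sqrt n))) : ℂ)).re =
      (Fintype.card (stab n (n - 8 * Nat.sqrt n)) : ℝ) *
      (finrank ℂ (altfix (toV ρ) (lastP n (8 * Nat.sqrt n))) : ℝ) := by
    rw [← Complex.ofReal_natCast, ← Complex.ofReal_natCast, ← Complex.ofReal_mul,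
      Complex.ofReal_re]
  rw [h1]
  nlinarith

end Pool.Agent.Helper77.NX
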